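import Pool.Agent.Helper41.Gap.Defs

set_option autoImplicit false

open scoped Pointwise RealInnerProductSpace TensorProduct
open ProbabilityTheory MeasureTheory Module

namespace Pool.Agent.Helper41.Gap

variable {E : Type} [NormedAddCommGroup E] [InnerProductSpace ℝ E]

/-- Diagonal form of a positive semidefinite tensor. -/
theorem cut_diag {ι : Type} [Fintype ι] (w : ι → ℝ) (hw : ∀ i, 0 ≤ w i)
    (z : ι → E) (h1 : ∑ i, w i * ‖z i‖ ^ 2 = 1) :
    ∃ (n : ℕ) (f : Fin n → E) (t : Fin n → ℝ), Orthonormal ℝ f ∧ (∀ k, 0 ≤ t k) ∧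
      ∑ k, t k = 1 ∧
      (∑ i, w i • (z i ⊗ₜ[ℝ] z i)) = ∑ k, t k • (f k ⊗ₜ[ℝ] f k) := by
  classical
  set W : Submodule ℝ E := Submodule.span ℝ (Set.range z) with hW
  have : FiniteDimensional ℝ W := FiniteDimensional.span_of_finite ℝ (Set.finite_range z)
  have hz : ∀ i, z i ∈ W := fun i => Submodule.subset_span ⟨i, rfl⟩
  set y : ι → W := fun i => ⟨z i, hz i⟩ with hy
  let A : W →ₗ[ℝ] W := ∑ i, (w i) • ((innerₛₗ ℝ (y i)).smulRight (y i))
  have hA : ∀ x, A x = ∑ i, (w i * ⟪y i, x⟫) • y i := by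
    intro x
    simp only [A, LinearMap.sum_apply, LinearMap.smul_apply, LinearMap.smulRight_apply,
      smul_smul]
    rfl
  have hAi : ∀ u v, ⟪u, A v⟫ = ∑ i, w i * ⟪y i, u⟫ * ⟪y i, v⟫ := by
    intro u v
    rw [hA, inner_sum]
    refine Finset.sum_congr rfl fun i _ => ?_
    rw [inner_smul_right, real_inner_comm u (y i)]
    ring
  have hsym : A.IsSymmetric := by
    intro u v
    rw [real_inner_comm, hAi, hAi]
    refine Finset.sum_congr rfl fun i _ => ?_
    ring
  set b := hsym.eigenvectorBasis (rfl : finrank ℝ W = finrank ℝ W) with hb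
  set t : Fin (finrank ℝ W) → ℝ := hsym.eigenvalues rfl with ht
  have hbt : ∀ k, A (b k) = t k • b k := fun k => by
    exact hsym.apply_eigenvectorBasis (rfl : finrank ℝ W = finrank ℝ W) k
  have hkl : ∀ k l, ∑ i, w i * ⟪y i, b k⟫ * ⟪y i, b l⟫ = if k = l then t k else 0 := by
    intro k l
    rw [← hAi, hbt, inner_smul_right, b.inner_eq_ite]
    split_ifs with h <;> simp [h]
  have ht0 : ∀ k, 0 ≤ t k := by
    intro k
    have h := hkl k k
    rw [if_pos rfl] at h
    rw [← h]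
    refine Finset.sum_nonneg fun i _ => ?_
    have := hw i
    rw [mul_assoc]
    exact mul_nonneg this (mul_self_nonneg _)
  refine ⟨finrank ℝ W, fun k => (b k : E), t, ?_, ht0, ?_, ?_⟩
  · have := b.orthonormal
    rw [orthonormal_iff_ite] at this ⊢
    intro i j
    exact this i j
  · have : ∀ k, t k = ∑ i, w i * ⟪y i, b k⟫ ^ 2 := by
      intro k
      have h := hkl k k
      rw [if_pos rfl] at h
      rw [← h]
      refine Finset.sum_congr rfl fun i _ => ?_
      ring
    simp_rw [this]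
    rw [Finset.sum_comm]
    rw [← h1]
    refine Finset.sum_congr rfl fun i _ => ?_
    rw [← Finset.mul_sum]
    congr 1
    have h := b.sum_sq_norm_inner_right (y i)
    have h2 : ‖y i‖ = ‖z i‖ := rfl
    rw [h2] at h
    rw [← h]
    refine Finset.sum_congr rfl fun k _ => ?_
    rw [Real.norm_eq_abs, sq_abs, real_inner_comm]
  · have hzi : ∀ i, z i = ∑ k, ⟪y i, b k⟫ • (b k : E) := by
      intro i
      have h := b.sum_repr' (y i)
      have h2 := congrArg (Subtype.val) h
      simp only [Submodule.coe_sum, Submodule.coe_smul] at h2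
      rw [show z i = (y i : E) from rfl, ← h2]
      refine Finset.sum_congr rfl fun k _ => ?_
      rw [real_inner_comm]
    have e1 : ∀ i, w i • (z i ⊗ₜ[ℝ] z i) =
        ∑ k, ∑ l, (w i * ⟪y i, b k⟫ * ⟪y i, b l⟫) • ((b k : E) ⊗ₜ[ℝ] (b l : E)) := by
      intro i
      conv_lhs => rw [hzi i]
      rw [TensorProduct.sum_tmul, Finset.smul_sum]
      refine Finset.sum_congr rfl fun k _ => ?_
      rw [TensorProduct.tmul_sum, Finset.smul_sum]
      refine Finset.sum_congr rfl fun l _ => ?_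
      rw [TensorProduct.smul_tmul_smul, smul_smul, mul_assoc]
    simp_rw [e1]
    rw [Finset.sum_comm]
    refine Finset.sum_congr rfl fun k _ => ?_
    rw [Finset.sum_comm]
    have e2 : ∀ l, ∑ i, (w i * ⟪y i, b k⟫ * ⟪y i, b l⟫) • ((b k : E) ⊗ₜ[ℝ] (b l : E)) =
        (if k = l then t k else 0) • ((b k : E) ⊗ₜ[ℝ] (b l : E)) := by
      intro l
      rw [← Finset.sum_smul, hkl]
    simp_rw [e2]
    simp

/-- A gap of the eigenvalues. -/
theorem cut_gap {n : ℕ} (t : Fin n → ℝ) (h0 : ∀ k, 0 ≤ t k) (h1 : ∑ k, t k = 1) (Θ : ℝ)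
    (hΘ : 0 < Θ) (hΘ1 : Θ ≤ 1) :
    ∃ a b : ℝ, Θ / 4 ≤ a ∧ b ≤ Θ / 2 ∧ Θ ^ 2 / 20 ≤ b - a ∧
      (∀ k, t k < a ∨ b ≤ t k) ∧ ((Finset.univ.filter (fun k => b ≤ t k)).card : ℝ) ≤ 4 / Θ := by
  classical
  set B : Finset (Fin n) := Finset.univ.filter (fun k => Θ / 4 ≤ t k) with hB
  set N : ℕ := B.card with hN
  have hNb : (N : ℝ) ≤ 4 / Θ := by
    have : (N : ℝ) * (Θ / 4) ≤ 1 := by
      rw [← h1]
      calc (N : ℝ) * (Θ / 4) = ∑ _k ∈ B, (Θ / 4) := by
            rw [Finset.sum_const, nsmul_eq_mul]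
        _ ≤ ∑ k ∈ B, t k := Finset.sum_le_sum fun k hk => by
            rw [hB, Finset.mem_filter] at hk
            exact hk.2
        _ ≤ ∑ k, t k := Finset.sum_le_sum_of_subset_of_nonneg (Finset.subset_univ _)
            (fun k _ _ => h0 k)
    rw [le_div_iff₀ hΘ]
    nlinarith
  set δ : ℝ := (Θ / 4) / (N + 1) with hδ
  have hN1 : (0 : ℝ) < (N : ℝ) + 1 := by positivity
  have hδ0 : 0 < δ := by positivity
  have hδ1 : Θ ^ 2 / 20 ≤ δ := by
    rw [hδ, le_div_iff₀ hN1]
    have h4 : (N : ℝ) * Θ ≤ 4 := by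
      rw [le_div_iff₀ hΘ] at hNb
      exact hNb
    nlinarith
  have hδ2 : (N + 1) * δ = Θ / 4 := by
    rw [hδ]; field_simp
  -- pigeonhole
  have key : ∃ j : ℕ, j < N + 1 ∧ ∀ k, ¬ (Θ / 4 + j * δ ≤ t k ∧ t k < Θ / 4 + (j + 1) * δ) := by
    by_contra hcon
    push Not at hcon
    have hne : Nonempty (Fin n) := by
      obtain ⟨k, -⟩ := hcon 0 (Nat.succ_pos _)
      exact ⟨k⟩
    choose! F hF using hcon
    have hmaps : ∀ j ∈ Finset.range (N + 1), F j ∈ B := by
      intro j hj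
      have := (hF j (Finset.mem_range.mp hj)).1
      rw [hB, Finset.mem_filter]
      refine ⟨Finset.mem_univ _, le_trans ?_ this⟩
      have : 0 ≤ (j : ℝ) * δ := by positivity
      linarith
    have hinj : Set.InjOn F (Finset.range (N + 1) : Set ℕ) := by
      intro i hi j hj hij
      have hi' := hF i (by simpa using hi)
      have hj' := hF j (by simpa using hj)
      rw [hij] at hi'
      rcases lt_trichotomy i j with h | h | h
      · exfalso
        have : ((i : ℝ) + 1) ≤ j := by exact_mod_cast h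
        nlinarith [hi'.2, hj'.1]
      · exact h
      · exfalso
        have : ((j : ℝ) + 1) ≤ i := by exact_mod_cast h
        nlinarith [hj'.2, hi'.1]
    have := Finset.card_le_card_of_injOn F hmaps hinj
    rw [Finset.card_range] at this
    omega
  obtain ⟨j, hj, hjk⟩ := key
  have hj' : (j : ℝ) + 1 ≤ N + 1 := by exact_mod_cast hj
  refine ⟨Θ / 4 + j * δ, Θ / 4 + (j + 1) * δ, ?_, ?_, ?_, ?_, ?_⟩
  · have : 0 ≤ (j : ℝ) * δ := by positivity
    linarith
  · have : ((j : ℝ) + 1) * δ ≤ (N + 1) * δ := by gcongr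
    linarith
  · have : Θ / 4 + (j + 1) * δ - (Θ / 4 + j * δ) = δ := by ring
    rw [this]; exact hδ1
  · intro k
    by_contra hcon
    push Not at hcon
    exact hjk k hcon
  · refine le_trans ?_ hNb
    rw [hN]
    refine Nat.cast_le.mpr (Finset.card_le_card ?_)
    intro k hk
    rw [Finset.mem_filter] at hk
    rw [hB, Finset.mem_filter]
    refine ⟨hk.1, le_trans ?_ hk.2⟩
    have : 0 ≤ ((j : ℝ) + 1) * δ := by positivity
    linarith

end Pool.Agent.Helper41.Gap
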