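import Pool.Agent.Helper1.Gap.CutA

set_option autoImplicit false

open scoped Pointwise RealInnerProductSpace TensorProduct
open ProbabilityTheory MeasureTheory Module

namespace Pool.Agent.Helper41.Gap

variable {E : Type} [NormedAddCommGroup E] [InnerProductSpace ℝ E]

/-- Norm bound of a linear map from its singular vectors. -/
theorem cut_singular (V : Submodule ℝ E) [FiniteDimensional ℝ V] (C : V →ₗ[ℝ] E) (K : ℝ)
    (hK : 0 ≤ K)
    (h : ∀ v : V, ‖v‖ = 1 → (∀ u : V, ⟪C u, C v⟫ = ‖C v‖ ^ 2 * ⟪u, v⟫) → ‖C v‖ ≤ K)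
    (v : V) : ‖C v‖ ≤ K * ‖v‖ := by
  classical
  let R : V →ₗ[ℝ] LinearMap.range C := C.rangeRestrict
  let D : V →ₗ[ℝ] V := (LinearMap.adjoint R).comp R
  have hD : ∀ u v, ⟪u, D v⟫ = ⟪C u, C v⟫ := by
    intro u v
    change ⟪u, (LinearMap.adjoint R) (R v)⟫ = _
    rw [LinearMap.adjoint_inner_right]
    rfl
  have hsym : D.IsSymmetric := by
    intro u v
    rw [real_inner_comm, hD, hD, real_inner_comm]
  set b := hsym.eigenvectorBasis (rfl : finrank ℝ V = finrank ℝ V) with hb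
  set t : Fin (finrank ℝ V) → ℝ := hsym.eigenvalues rfl with ht
  have hbt : ∀ k, D (b k) = t k • b k := fun k => by
    exact hsym.apply_eigenvectorBasis (rfl : finrank ℝ V = finrank ℝ V) k
  have hk : ∀ k, ‖C (b k)‖ ^ 2 = t k := by
    intro k
    rw [← real_inner_self_eq_norm_sq, ← hD, hbt, inner_smul_right, real_inner_self_eq_norm_sq,
      b.norm_eq_one]
    ring
  have hk2 : ∀ k, t k ≤ K ^ 2 := by
    intro k
    rw [← hk]
    have := h (b k) (b.norm_eq_one k) (fun u => by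
      rw [← hD, hbt, inner_smul_right, hk])
    gcongr
  have hv : ‖C v‖ ^ 2 = ∑ k, t k * ⟪b k, v⟫ ^ 2 := by
    rw [← real_inner_self_eq_norm_sq, ← hD]
    have e : D v = ∑ k, (t k * ⟪b k, v⟫) • b k := by
      conv_lhs => rw [← b.sum_repr' v]
      rw [map_sum]
      refine Finset.sum_congr rfl fun k _ => ?_
      rw [map_smul, hbt, smul_smul, mul_comm]
    rw [e, inner_sum]
    refine Finset.sum_congr rfl fun k _ => ?_
    rw [inner_smul_right, real_inner_comm]
    ring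
  have hv2 : ‖C v‖ ^ 2 ≤ (K * ‖v‖) ^ 2 := by
    rw [hv, mul_pow]
    have h3 : ‖v‖ ^ 2 = ∑ k, ⟪b k, v⟫ ^ 2 := by
      rw [← b.sum_sq_norm_inner_right v]
      refine Finset.sum_congr rfl fun k _ => ?_
      rw [Real.norm_eq_abs, sq_abs]
    rw [h3, Finset.mul_sum]
    refine Finset.sum_le_sum fun k _ => ?_
    have := hk2 k
    gcongr
  exact le_of_sq_le_sq hv2 (by positivity)

theorem cut_inner {n : ℕ} (f : Fin n → E) (t : Fin n → ℝ) (x y : E) :
    ⟪x ⊗ₜ[ℝ] y, ∑ k, t k • (f k ⊗ₜ[ℝ] f k)⟫ = ∑ k, t k * (⟪x, f k⟫ * ⟪y, f k⟫) := by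
  rw [inner_sum]
  refine Finset.sum_congr rfl fun k _ => ?_
  rw [TensorProduct.smul_tmul', TensorProduct.inner_tmul, real_inner_smul_right]
  ring

theorem cut_norm {n : ℕ} (f : Fin n → E) (hf : Orthonormal ℝ f) (t : Fin n → ℝ) :
    ‖∑ k, t k • (f k ⊗ₜ[ℝ] f k)‖ ^ 2 = ∑ k, t k ^ 2 := by
  classical
  rw [← real_inner_self_eq_norm_sq, sum_inner]
  refine Finset.sum_congr rfl fun k _ => ?_
  rw [TensorProduct.smul_tmul', cut_inner]
  simp_rw [real_inner_smul_left]
  rw [orthonormal_iff_ite] at hf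
  simp_rw [hf]
  simp
  ring

theorem cut_span_norm {n : ℕ} (f : Fin n → E) (hf : Orthonormal ℝ f) (I : Finset (Fin n))
    (v : E) (hv : v ∈ Submodule.span ℝ (f '' (I : Set (Fin n)))) :
    ‖v‖ ^ 2 = ∑ k ∈ I, ⟪v, f k⟫ ^ 2 := by
  classical
  have key : v = ∑ k ∈ I, ⟪v, f k⟫ • f k := by
    induction hv using Submodule.span_induction with
    | mem x hx =>
      obtain ⟨i, hi, rfl⟩ := hx
      rw [orthonormal_iff_ite] at hf
      simp_rw [hf]
      simp only [ite_smul, one_smul, zero_smul]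
      rw [Finset.sum_ite_eq, if_pos (by simpa using hi)]
    | zero => simp
    | add x y _ _ hx hy =>
      conv_lhs => rw [hx, hy]
      rw [← Finset.sum_add_distrib]
      refine Finset.sum_congr rfl fun k _ => ?_
      rw [inner_add_left, add_smul]
    | smul a x _ hx =>
      conv_lhs => rw [hx]
      rw [Finset.smul_sum]
      refine Finset.sum_congr rfl fun k _ => ?_
      rw [real_inner_smul_left, smul_smul]
  have h2 : ⟪v, v⟫ = ⟪∑ k ∈ I, ⟪v, f k⟫ • f k, v⟫ := by rw [← key]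
  rw [← real_inner_self_eq_norm_sq, h2, sum_inner]
  refine Finset.sum_congr rfl fun k _ => ?_
  rw [real_inner_smul_left, real_inner_comm (f k) v]
  ring

end Pool.Agent.Helper41.Gap
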